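import Pool.Agent.H14.TOW.TargetsM
import Pool.Agent.H18.VZ.Nfi

set_option autoImplicit false

open MvPolynomial
open Pool.Agent.H12.ZD (pmap)
open Pool.Agent.H18.HIT Pool.Agent.H18.HX Pool.Agent.H18.VP Pool.Agent.H18.VZ
open Pool.Agent.H14.TOW

namespace Pool.Agent.H68.TOW

section scale

variable {M : ℕ} {k A : Type} [Field k] [Field A] [Algebra k A]

/-- forms at multiples of a point -/
theorem aeval_scale {q : Po M k} {t : ℕ} (hq : q.IsHomogeneous t) (h : A) (G : Fin M → A) :
    aeval (fun i => h * G i) q = h ^ t * aeval G q := by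
  rw [aeval_def, aeval_def, eval₂_eq', eval₂_eq', Finset.mul_sum]
  apply Finset.sum_congr rfl
  intro m hm
  have h1 : ∏ i, (h * G i) ^ m i = h ^ t * ∏ i, G i ^ m i := by
    rw [Finset.prod_congr rfl fun i _ => mul_pow h (G i) (m i), Finset.prod_mul_distrib,
      Finset.prod_pow_eq_pow_sum]
    congr 2
    have h2 := hq (mem_support_iff.mp hm)
    rw [Finsupp.weight_apply, Finsupp.sum_fintype _ _ (fun i => by simp)] at h2
    simpa using h2
  rw [h1]
  ring

end scale

section pt

variable {L M : ℕ} {k E : Type} [Field k] [Field E] [Algebra k E]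

theorem mem_pid_zero (hP : T_PID) {w : Fin L → E} {c : Po L k} (hc : c ∈ pid (k := k) w) :
    aeval w c = 0 := by
  have h1 := ((hP k E L w).2 c).1.1 hc
  rw [← sum_homogeneousComponent c, map_sum]
  exact Finset.sum_eq_zero fun t _ => h1 t

theorem mem_pid_iff (hP : T_PID) {w : Fin L → E} {c : Po L k} {t : ℕ} (hc : c.IsHomogeneous t) :
    c ∈ pid (k := k) w ↔ aeval w c = 0 := ((hP k E L w).2 c).2.2 t hc

theorem aeval_aeval' (w : Fin L → E) (g : Fin M → Po L k) (c : Po M k) :
    aeval w (aeval g c) = aeval (fun i => aeval w (g i)) c := by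
  rw [← AlgHom.comp_apply, comp_aeval]

/-- the homogenisation of degree `T` with the variable `X 0` -/
noncomputable def hmz (T : ℕ) (p : Po (L + 1) k) : Po (L + 1) k :=
  ∑ j ∈ Finset.range (p.totalDegree + 1), X 0 ^ (T - j) * homogeneousComponent j p

theorem hmz_hom {T : ℕ} {p : Po (L + 1) k} (hT : p.totalDegree ≤ T) :
    (hmz T p).IsHomogeneous T := by
  refine IsHomogeneous.sum _ _ _ fun j hj => ?_
  have h1 : j ≤ T := (Nat.lt_succ_iff.1 (Finset.mem_range.1 hj)).trans hT
  have h2 : (X 0 ^ (T - j) : Po (L + 1) k).IsHomogeneous (T - j) := by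
    have := (isHomogeneous_X k (0 : Fin (L + 1))).pow (T - j)
    rwa [one_mul] at this
  have h3 := h2.mul (homogeneousComponent_isHomogeneous j p)
  rwa [Nat.sub_add_cancel h1] at h3

theorem hmz_aeval (T : ℕ) (p : Po (L + 1) k) {w : Fin (L + 1) → E} (h0 : w 0 = 1) :
    aeval w (hmz T p) = aeval w p := by
  unfold hmz
  rw [map_sum]
  conv_rhs => rw [← sum_homogeneousComponent p]
  rw [map_sum]
  refine Finset.sum_congr rfl fun j _ => ?_
  rw [map_mul, map_pow, aeval_X, h0, one_pow, one_mul]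

end pt

theorem pf_MDL (h0 : T_MDA) (hP : T_PID) (hA : T_NFA) (hB : T_NFB) (hC : T_NFC) (hL : T_LFT) :
    T_MDL := by
  intro k E _ _ _ _ _ σ hfg
  obtain ⟨L, D, w, f, hw0, hw, hD, hf, hf0, hfm⟩ := h0 k E σ hfg
  have hIp : (pid (k := k) w).IsPrime := (hP k E (L + 1) w).1
  set I : Ideal (Po (L + 1) k) := pid (k := k) w with hI
  have hhom : ∀ c ∈ I, ∀ t, homogeneousComponent t c ∈ I := fun c hc t =>
    ((hP k E (L + 1) w).2 c).2.1 hc t
  have hX0 : (X 0 : Po (L + 1) k) ∉ I := by
    intro h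
    have h1 := mem_pid_zero hP h
    rw [aeval_X, hw0] at h1
    exact one_ne_zero h1
  -- the value of `f`
  have hval : ∀ {t : ℕ} {c : Po (L + 1) k}, c.IsHomogeneous t →
      aeval w (aeval f c) = aeval w (f 0) ^ t * σ (aeval w c) := by
    intro t c hc
    rw [aeval_aeval']
    have h1 : (fun i => aeval w (f i)) = fun i => aeval w (f 0) * σ (w i) := funext hfm
    rw [h1, aeval_scale hc]
    congr 1
    have h2 : σ (aeval w c) = aeval (fun i => σ (w i)) c := by
      rw [← AlgHom.comp_apply, comp_aeval]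
    rw [h2]
  have hinv : ∀ c ∈ I, aeval f c ∈ I := by
    intro c hc
    rw [← sum_homogeneousComponent c, map_sum]
    refine Ideal.sum_mem _ fun t _ => ?_
    have hct : (homogeneousComponent t c).IsHomogeneous t := homogeneousComponent_isHomogeneous t c
    have h1 : (aeval f (homogeneousComponent t c)).IsHomogeneous (D * t) :=
      hct.aeval f hf
    refine (mem_pid_iff hP h1).2 ?_
    rw [hval hct, mem_pid_zero hP (hhom c hc t), map_zero, mul_zero]
  obtain ⟨N, l, hN, hl1, hind, hint, hden⟩ := hA (L + 1) k I hhom ⟨0, hX0⟩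
  have hl0 : ∃ Q : Polynomial (Po N k), Q.Monic ∧
      evg (fun j : Fin N => l j.succ) (l 0) Q ∈ I := int_all hint _
  obtain ⟨P, r, hPh, hker⟩ := hB (L + 1) N k I l hhom hl1 hind hl0
  obtain ⟨Δ, δ, hpro⟩ := hC (L + 1) N r k I l P hN hhom hl1 hind hint hden hPh hker
  obtain ⟨F, hF, hFl, hFP⟩ := hL (L + 1) N r δ D k I l P Δ f hpro hhom hf hinv
  have hDn := den_notMem hpro
  obtain ⟨n, rfl⟩ : ∃ n, N = n + 1 := ⟨N - 1, by omega⟩
  have hr : 1 ≤ r := by
    by_contra hr0
    have hr0' : r = 0 := by omega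
    apply hpro.hyp.irr.not_isUnit
    have h1 : P.totalDegree = 0 := by
      have := hpro.hyp.hom.totalDegree_le
      omega
    rw [totalDegree_eq_zero_iff_eq_C] at h1
    rw [h1, isUnit_map_iff, isUnit_iff_ne_zero]
    intro h0
    rw [h0, C_0] at h1
    exact hpro.hyp.irr.ne_zero h1
  -- the normalising coordinate
  have hl1I : l (Fin.succ 0) ∉ I := by
    intro h
    have h1 : aeval l (up (X 0 : Po (n + 1) k)) ∈ I := by
      rw [up, aeval_rename, aeval_X]
      exact h
    exact Pool.Agent.H49.VZ.not_dvd_up hpro.hyp (X_ne_zero 0) ((hpro.ker _).mp h1)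
  have hl : aeval w (l (Fin.succ 0)) ≠ 0 := fun h => hl1I ((mem_pid_iff hP (hl1 _)).2 h)
  obtain ⟨lam, hlam⟩ : ∃ lam : E, lam = (aeval w (l (Fin.succ 0)))⁻¹ := ⟨_, rfl⟩
  have hlam0 : lam ≠ 0 := by rw [hlam]; exact inv_ne_zero hl
  let y : Fin (n + 1 + 1) → E := fun i => lam * aeval w (l i)
  have hy : ∀ {m : ℕ} {c : Po (n + 1 + 1) k}, c.IsHomogeneous m →
      aeval y c = lam ^ m * aeval w (aeval l c) := by
    intro m c hc
    rw [aeval_scale hc, aeval_aeval']
  have hD2 : (aeval (fun j : Fin (n + 1) => l j.succ) Δ).IsHomogeneous δ := by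
    have h1 := hpro.dhom.aeval (fun j : Fin (n + 1) => l j.succ) (fun i => hl1 i.succ)
    rwa [one_mul] at h1
  obtain ⟨Dw, hDw⟩ : ∃ Dw : E, Dw = aeval w (aeval (fun j : Fin (n + 1) => l j.succ) Δ) :=
    ⟨_, rfl⟩
  have hDw0 : Dw ≠ 0 := by
    rw [hDw]
    exact fun h => hDn ((mem_pid_iff hP hD2).2 h)
  have hFv : ∀ i, aeval w (aeval l (F i)) = Dw * (aeval w (f 0) * σ (aeval w (l i))) := by
    intro i
    have h1 := mem_pid_zero hP (hFl i)
    rw [map_sub, map_mul, ← hDw, hval (hl1 i), pow_one, sub_eq_zero] at h1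
    exact h1.symm
  have hσl : σ (aeval w (l (Fin.succ 0))) ≠ 0 := by
    intro h
    exact hl (σ.toRingHom.injective (by rw [map_zero]; exact h))
  have hyF : ∀ i, aeval y (F i) = lam ^ (D + δ) * (Dw * (aeval w (f 0) * σ (aeval w (l i)))) := by
    intro i
    rw [hy (hF i), hFv i]
  refine ⟨n, r, D + δ, P, F, y, ?_⟩
  refine
    { hyp := hpro.hyp
      le := hpro.le.trans (Nat.le_add_left _ _)
      two := by have := hpro.le; omega
      hom := hF
      y1 := by
        change lam * aeval w (l (Fin.succ 0)) = 1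
        rw [hlam, inv_mul_cancel₀ hl]
      ker := ?_
      gen := ?_
      map := ?_
      ne := ?_ }
  · intro m c hc
    have h1 : (aeval l c).IsHomogeneous m := by
      have h2 := hc.aeval l hl1
      rwa [one_mul] at h2
    rw [hy hc, ← hpro.ker c, mem_pid_iff hP h1]
    constructor
    · intro h
      exact (mul_eq_zero.1 h).resolve_left (pow_ne_zero _ hlam0)
    · intro h
      rw [h, mul_zero]
  · intro a
    have ha : a ∈ IntermediateField.adjoin k (Set.range w) := by
      rw [hw]; exact IntermediateField.mem_top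
    obtain ⟨p, q, hpq⟩ := (IntermediateField.mem_adjoin_range_iff (F := k) w a).1 ha
    by_cases hq : aeval w q = 0
    · refine ⟨0, 0, 1, isHomogeneous_zero _ _ _, isHomogeneous_one _ _, ?_, ?_⟩
      · rw [map_one]; exact one_ne_zero
      · rw [map_one, map_zero, hpq, hq, div_zero, zero_mul]
    · obtain ⟨T, hT⟩ : ∃ T, T = max p.totalDegree q.totalDegree := ⟨_, rfl⟩
      have hpT : (hmz T p).IsHomogeneous T := hmz_hom (by rw [hT]; exact le_max_left _ _)
      have hqT : (hmz T q).IsHomogeneous T := hmz_hom (by rw [hT]; exact le_max_right _ _)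
      obtain ⟨A', hA', hA'I⟩ := hpro.den T _ hpT
      obtain ⟨B', hB', hB'I⟩ := hpro.den T _ hqT
      have h1 := mem_pid_zero hP hA'I
      have h2 := mem_pid_zero hP hB'I
      rw [map_sub, map_mul, ← hDw, hmz_aeval T p hw0, sub_eq_zero] at h1
      rw [map_sub, map_mul, ← hDw, hmz_aeval T q hw0, sub_eq_zero] at h2
      refine ⟨T + δ, A', B', hA', hB', ?_, ?_⟩
      · rw [hy hB', ← h2]
        exact mul_ne_zero (pow_ne_zero _ hlam0) (mul_ne_zero hDw0 hq)
      · rw [hy hB', hy hA', ← h1, ← h2, hpq]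
        field_simp
  · intro i
    rw [hyF i, hyF (Fin.succ 0)]
    change _ = _ * σ (lam * aeval w (l i))
    rw [map_mul, hlam, map_inv₀]
    field_simp
  · rw [hyF]
    exact mul_ne_zero (pow_ne_zero _ hlam0) (mul_ne_zero hDw0 (mul_ne_zero hf0 hσl))

end Pool.Agent.H68.TOW
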